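import Pool.Agent.W872.SV.Stm

set_option autoImplicit false
open Finset

namespace W727.SV.BCNTb

open W872.SV

open Classical in
/-- data -/
abbrev T (n t u : ℕ) : Type := Fin u → (Fin n × Fin n × Bool × {s : Finset (Fin n) // s.card ≤ t})

open Classical in
/-- family -/
noncomputable def F {n t u : ℕ} (d : T n t u) : Finset (SimpleGraph (Fin n)) :=
  if (Function.Injective (fun s => (d s).1)) ∧ (∀ s r, (d s).2.1 ≠ (d r).1) then
    univ.filter fun G : SimpleGraph (Fin n) =>
      ∀ s x, ((G.Adj (d s).1 x ↔ G.Adj (d s).2.1 x) ↔ (x ∈ (d s).2.2.2.1 ↔ (d s).2.2.1 = true))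
  else ∅

theorem hF (hCB : PartCB) {n t u : ℕ} (d : T n t u) :
    (F d).card * 2 ^ (u * (n - u)) ≤ 2 ^ (n.choose 2) := by
  classical
  unfold F
  by_cases h : (Function.Injective (fun s => (d s).1)) ∧ (∀ s r, (d s).2.1 ≠ (d r).1)
  · rw [if_pos h]
    have := hCB n u (fun s => (d s).1) (fun s => (d s).2.1) (fun s => (d s).2.2.1)
      (fun s => (d s).2.2.2.1) h.1 h.2
    convert this
  · rw [if_neg h]; simp

theorem cardT (n t u : ℕ) : Fintype.card (T n t u) = (2 * n ^ 2 * NS n t) ^ u := by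
  classical
  have h1 : Fintype.card {s : Finset (Fin n) // s.card ≤ t} = NS n t := by
    unfold NS
    rw [Fintype.card_subtype]
  unfold T
  rw [Fintype.card_fun, Fintype.card_prod, Fintype.card_prod, Fintype.card_prod, h1,
    Fintype.card_fin, Fintype.card_bool, Fintype.card_fin]
  congr 1
  ring

theorem mem_F (hIND : PartIND) {n M u : ℕ} (hn : 4 * u + 2 ≤ n) {G : SimpleGraph (Fin n)}
    (hG : G ∈ setB n M) : ∃ d : T n (M + 6) u, G ∈ F d := by
  classical
  unfold setB at hG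
  rw [Finset.mem_filter] at hG
  obtain ⟨-, i₀, i₁, h⟩ := hG
  have h1 : ∀ i : Fin n, ∃ j, (i ≠ i₀ → i ≠ i₁ → j ≠ i ∧ Near G (M + 6) i j) := by
    intro i
    by_cases h2 : i ≠ i₀ ∧ i ≠ i₁
    · obtain ⟨j, hj⟩ := h i h2.1 h2.2
      exact ⟨j, fun _ _ => hj⟩
    · exact ⟨i, fun a b => absurd ⟨a, b⟩ h2⟩
  choose f hf using h1
  obtain ⟨U, hUK, hUc, hUf⟩ := hIND n ((univ.erase i₀).erase i₁) f (by
    intro i hi
    have h2 := Finset.mem_erase.mp hi
    have h3 := Finset.mem_erase.mp h2.2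
    exact (hf i h3.1 h2.1).1)
  have hK : n ≤ ((univ.erase i₀).erase i₁).card + 2 := by
    have h2 : (univ.erase i₀ : Finset (Fin n)).card = n - 1 := by
      rw [Finset.card_erase_of_mem (Finset.mem_univ _), Finset.card_univ, Fintype.card_fin]
    have h3 := Finset.pred_card_le_card_erase (s := (univ.erase i₀ : Finset (Fin n))) (a := i₁)
    omega
  have hu : u ≤ U.card := by omega
  obtain ⟨V, hVU, hVc⟩ := Finset.exists_subset_card_eq hu
  let e : Fin u ≃ V := (V.equivFinOfCardEq hVc).symm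
  have hne : ∀ s : Fin u, Near G (M + 6) (e s : Fin n) (f (e s)) := by
    intro s
    have h2 := Finset.mem_erase.mp (hUK (hVU (e s).2))
    have h3 := Finset.mem_erase.mp h2.2
    exact (hf _ h3.1 h2.1).2
  choose ε hε using hne
  refine ⟨fun s => (e s, f (e s), !(ε s), ⟨_, hε s⟩), ?_⟩
  unfold F
  rw [if_pos]
  · rw [Finset.mem_filter]
    refine ⟨Finset.mem_univ _, fun s x => ?_⟩
    simp only [Finset.mem_filter, Finset.mem_univ, true_and]
    cases ε s <;> simp <;> tauto
  · refine ⟨fun s r hsr => e.injective (Subtype.ext hsr), fun s r hsr => ?_⟩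
    have h2 := hUf _ (hVU (e s).2)
    apply h2
    have h3 : f (e s) = (e r : Fin n) := hsr
    rw [h3]
    exact hVU (e r).2

theorem main : W872.SV.PartCB → W872.SV.PartIND → W872.SV.PartBCNT := by
  classical
  intro hCB hIND n M u hn
  have hsub : setB n M ⊆ (univ : Finset (T n (M + 6) u)).biUnion F := by
    intro G hG
    obtain ⟨d, hd⟩ := mem_F hIND hn hG
    exact Finset.mem_biUnion.mpr ⟨d, Finset.mem_univ _, hd⟩
  have hcard : (setB n M).card ≤ ∑ d : T n (M + 6) u, (F d).card :=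
    (Finset.card_le_card hsub).trans Finset.card_biUnion_le
  calc (setB n M).card * 2 ^ (u * (n - u))
      ≤ (∑ d : T n (M + 6) u, (F d).card) * 2 ^ (u * (n - u)) := Nat.mul_le_mul_right _ hcard
    _ = ∑ d : T n (M + 6) u, (F d).card * 2 ^ (u * (n - u)) := Finset.sum_mul _ _ _
    _ ≤ ∑ _d : T n (M + 6) u, 2 ^ (n.choose 2) := Finset.sum_le_sum fun d _ => hF hCB d
    _ = (2 * n ^ 2 * NS n (M + 6)) ^ u * (1 * 2 ^ (n.choose 2)) := by
        rw [Finset.sum_const, Finset.card_univ, cardT, smul_eq_mul, one_mul]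
    _ ≤ (2 * n ^ 2 * NS n (M + 6)) ^ u * (n ^ 2 * 2 ^ (n.choose 2)) := by
        apply Nat.mul_le_mul_left
        apply Nat.mul_le_mul_right
        exact Nat.one_le_pow _ _ (by omega)

end W727.SV.BCNTb
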